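import Pool.Agent.H54.MV.ThreeEckardt

/-!
# ThreeEckardt
-/

set_option autoImplicit false

open MvPolynomial

namespace Pool.Agent.Results.MP_3c244b_ag.ThreeEckardt

open Pool.H54.MV.ThreeEckardt

variable {K : Type*} [Field K]

/-- **Del Pezzo surfaces of degree one with at least three generalized Eckardt points.**

Let `K` be an algebraically closed field with `2 ≠ 0` and `3 ≠ 0`, and let `β ≠ 0`, `4 β ≠ 27`.
The sextic `w² = z³ - (x² + y²)³ + β x² y⁴` in `ℙ(1,1,2,3)` is a del Pezzo surface of degree one,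
and it has three distinct generalized Eckardt points, all on the ramification curve `w = 0`. -/
theorem result (K : Type*) [Field K] [IsAlgClosed K] (h2 : (2 : K) ≠ 0) (h3 : (3 : K) ≠ 0)
    (β : K) (hβ : β ≠ 0) (hβ' : 4 * β ≠ 27) :
    IsDelPezzoOne 0 (formB β) ∧ ∃ P : Fin 3 → Fin 4 → K,
      (∀ i, IsGenEckardt 0 (formB β) (P i) ∧ P i 3 = 0) ∧
        ∀ i j, i ≠ j → ¬ SamePoint (P i) (P j) :=
  Pool.H54.MV.ThreeEckardt.result K h2 h3 β hβ hβ'

end Pool.Agent.Results.MP_3c244b_ag.ThreeEckardt
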